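import Mathlib
import Pool.Agent.MP_39a890_nt.All

namespace Pool.Agent.Results.MP_39a890_nt.BoundedMultiplier

/-- Every interval `[N, 2.715 N]` with `N` large contains `m p` with `p` and
`q = (m p + 1) / (m + 1)` prime and `m` bounded by an absolute constant. -/
theorem result :
    ∃ C N₀ : ℕ, ∀ N : ℕ, N₀ ≤ N → ∃ m p q : ℕ, 1 ≤ m ∧ m ≤ C ∧ p.Prime ∧ q.Prime ∧
      (m + 1) * q = m * p + 1 ∧ N ≤ m * p ∧ 1000 * (m * p) ≤ 2715 * N :=
  Pool.Agent.MP_39a890_nt.main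

end Pool.Agent.Results.MP_39a890_nt.BoundedMultiplier
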