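import Mathlib
import Pool.Agent.MP_39a890_nt.h6.Chain

/-!
# A third of the exponents `j` are first return times of `x ↦ g (x - 1) + 1` to the primes

For `g = 2`, `T = 1`, `j = 1` the inner set is the set of primes `p` in `[N, 2 N]` with
`(p + 1) / 2` prime.
-/

namespace Pool.Agent.Results.MP_39a890_nt.ChainThird

open Filter Pool.Agent.MP_39a890_nt.Chain

theorem result : ∃ K : ℕ, ∀ ε : ℝ, 0 < ε → ∃ T₀ : ℕ, ∀ T : ℕ, T₀ ≤ T → ∀ g : ℕ, 2 ≤ g →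
    ∃ N₀ : ℕ, ∀ N : ℕ, N₀ ≤ N → (1 / 3 - ε) * (T : ℝ) ≤
      (Set.ncard {j : ℕ | 1 ≤ j ∧ j ≤ T ∧ (N : ℝ) / Real.log N ^ K ≤
        (Set.ncard {p : ℕ | N ≤ p ∧ p ≤ g ^ T * N ∧ p.Prime ∧ g ^ j ∣ p - 1 ∧
          ((p - 1) / g ^ j + 1).Prime ∧
          ∀ i : ℕ, 0 < i → i < j → ¬ ((p - 1) / g ^ i + 1).Prime} : ℝ)} : ℝ) := by
  classical
  obtain ⟨K, h⟩ := sg_all
  refine ⟨K + 1, fun ε hε => ?_⟩
  obtain ⟨T₀, hT⟩ := eventually_atTop.1 (third h ε hε)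
  refine ⟨T₀, fun T h1 g hg => ?_⟩
  obtain ⟨N₀, hN⟩ := eventually_atTop.1 (hT T h1 g hg)
  refine ⟨N₀, fun N h2 => (hN N h2).trans (le_of_eq ?_)⟩
  rw [← Set.ncard_coe_finset]
  congr 2
  ext j
  rw [Finset.mem_coe, Finset.mem_filter, Finset.mem_Icc, ← Set.ncard_coe_finset, and_assoc]
  have e : (((Finset.Icc N (g ^ T * N)).filter (Ret g j) : Finset ℕ) : Set ℕ) =
      {p : ℕ | N ≤ p ∧ p ≤ g ^ T * N ∧ p.Prime ∧ g ^ j ∣ p - 1 ∧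
        ((p - 1) / g ^ j + 1).Prime ∧
        ∀ i : ℕ, 0 < i → i < j → ¬ ((p - 1) / g ^ i + 1).Prime} := by
    ext p
    rw [Finset.mem_coe, Finset.mem_filter, Finset.mem_Icc, and_assoc]
    rfl
  rw [e]
  rfl

end Pool.Agent.Results.MP_39a890_nt.ChainThird
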