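import Mathlib
import Pool.Agent.MP_39a890_nt.h21.SG2

/-! Primes `p` in `[N, 2 N]` with `(p + h) / 2` prime, for almost all odd `h` in short windows. -/

open Finset

namespace Pool.Agent.Results.MP_39a890_nt.ShiftAverage

open Pool.Agent.MP_678834_nt

theorem result : ∀ ε : ℝ, 0 < ε → ∀ A : ℕ, ∃ C N₀ : ℝ, ∀ N h₀ H : ℕ, N₀ ≤ (N : ℝ) →
    (N : ℝ) ^ (1 / 9 + ε) ≤ (H : ℝ) → ((h₀ + H : ℕ) : ℝ) ≤ (N : ℝ) / Real.log N ^ 3 →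
    ∃ Ex : Finset ℕ, (Ex.card : ℝ) ≤ C * H / Real.log N ^ A ∧
      ∀ h ∈ Finset.Ioc h₀ (h₀ + H), Odd h → h ∉ Ex →
        |(((Finset.Icc N (2 * N)).filter fun p : ℕ => p.Prime ∧ ((p + h) / 2).Prime).card : ℝ) *
          Real.log N ^ 2 / (sing (2 * h) * N / 2) - 1| ≤ C / Real.log N := by
  intro ε hε A
  obtain ⟨C, N₀, h⟩ := Pool.Agent.MP_39a890_nt.SG.final ε hε A
  refine ⟨C, N₀, fun N h₀ H h1 h2 h3 => ?_⟩
  obtain ⟨Ex, h4, h5⟩ := h N h₀ H h1 h2 h3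
  exact ⟨Ex, h4, fun k hk ho hn => (h5 k hk ho hn).1⟩

end Pool.Agent.Results.MP_39a890_nt.ShiftAverage
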