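import Mathlib
import Pool.Agent.MP_39a890_nt.All

namespace Pool.Agent.Results.MP_39a890_nt.UnitFractionGaps

/-- For all large `k`: if `1 < n 0 < n 1 < ... < n (k-1)` and the reciprocals add up to `1`,
then some gap is at least `3`. -/
theorem result :
    ∃ k₀ : ℕ, ∀ k : ℕ, k₀ ≤ k → ∀ n : ℕ → ℕ, 1 < n 0 → (∀ i, i + 1 < k → n i < n (i + 1)) →
      ∑ i ∈ Finset.range k, (1 : ℚ) / n i = 1 → ∃ i, i + 1 < k ∧ n i + 3 ≤ n (i + 1) :=
  Pool.Agent.MP_39a890_nt.erdos Pool.Agent.MP_39a890_nt.main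

end Pool.Agent.Results.MP_39a890_nt.UnitFractionGaps
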